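import Pool.Agent.H31.DP.Targets

/-!
# Board dpt_modules, row UH: the smoothed function
-/

set_option autoImplicit false

open Finset Filter Topology

namespace Pool.Agent.H49.DP

open Pool.Agent.H31.DP

theorem norm_ee (x : ℝ) : ‖ee x‖ = 1 := by
  unfold ee
  have h : (2 * Real.pi * Complex.I * x : ℂ) = ((2 * Real.pi * x : ℝ) : ℂ) * Complex.I := by
    push_cast; ring
  rw [h]
  exact Complex.norm_exp_ofReal_mul_I _

theorem ee_add (x y : ℝ) : ee (x + y) = ee x * ee y := by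
  unfold ee
  rw [← Complex.exp_add]
  congr 1
  push_cast
  ring

theorem ee_int (n : ℤ) : ee n = 1 := by
  unfold ee
  rw [Complex.exp_eq_one_iff]
  exact ⟨n, by push_cast; ring⟩

theorem norm_one_sub_ee (x : ℝ) (n : ℤ) : ‖1 - ee x‖ ≤ 2 * Real.pi * |x - n| := by
  have h1 : ee x = ee (x - n) := by
    have h2 : x = (x - n) + n := by ring
    conv_lhs => rw [h2]
    rw [ee_add, ee_int, mul_one]
  rw [h1, norm_sub_rev]
  have h2 : ee (x - n) = Complex.exp (Complex.I * ((2 * Real.pi * (x - n) : ℝ) : ℂ)) := by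
    unfold ee
    congr 1
    push_cast
    ring
  rw [h2]
  refine (Real.norm_exp_I_mul_ofReal_sub_one_le).trans ?_
  rw [Real.norm_eq_abs, abs_mul, abs_of_pos (by positivity : (0 : ℝ) < 2 * Real.pi)]

theorem shift_one (a : ℕ → ℂ) (M s : ℕ) :
    ∑ m ∈ Finset.Icc 1 M, a (m + (s + 1)) - ∑ m ∈ Finset.Icc 1 M, a (m + s) =
      a (M + s + 1) - a (s + 1) := by
  induction M with
  | zero => simp
  | succ M ih =>
    rw [Finset.sum_Icc_succ_top (by omega), Finset.sum_Icc_succ_top (by omega)]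
    have e1 : M + 1 + (s + 1) = M + 1 + s + 1 := by ring
    have e2 : M + s + 1 = M + 1 + s := by ring
    rw [e2] at ih
    rw [e1]
    linear_combination ih

/-- shifting a sum -/
theorem shift (a : ℕ → ℂ) (ha : ∀ n, ‖a n‖ ≤ 1) (M s : ℕ) :
    ‖∑ m ∈ Finset.Icc 1 M, a (m + s) - ∑ m ∈ Finset.Icc 1 M, a m‖ ≤ 2 * s := by
  induction s with
  | zero => simp
  | succ s ih =>
    have h2 : ∑ m ∈ Finset.Icc 1 M, a (m + (s + 1)) - ∑ m ∈ Finset.Icc 1 M, a m =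
        (a (M + s + 1) - a (s + 1)) +
          (∑ m ∈ Finset.Icc 1 M, a (m + s) - ∑ m ∈ Finset.Icc 1 M, a m) := by
      rw [← shift_one a M s]; ring
    rw [h2]
    have h3 : ‖a (M + s + 1) - a (s + 1)‖ ≤ 2 :=
      (norm_sub_le _ _).trans (by linarith [ha (M + s + 1), ha (s + 1)])
    refine (norm_add_le _ _).trans ?_
    push_cast
    linarith

theorem uh1 (f : ℕ → ℂ) (N q J : ℕ) (θ : ℝ) (hf : ∀ n, ‖f n‖ ≤ 1) (hJ : 0 < J) :
    ‖∑ m ∈ Finset.Icc 1 (2 * N), (f m - (∑ j ∈ Finset.Icc 1 J, f (m + q * j)) / J) * ee (m * θ)‖ ≤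
      ‖∑ m ∈ Finset.Icc 1 (2 * N), f m * ee (m * θ)‖ *
        ‖1 - (∑ j ∈ Finset.Icc 1 J, ee (-(q * j * θ))) / J‖ + 2 * q * J := by
  have hJ0 : (0 : ℝ) < J := by exact_mod_cast hJ
  have hJC : (J : ℂ) ≠ 0 := by exact_mod_cast hJ.ne'
  set a : ℕ → ℂ := fun k => f k * ee (k * θ) with ha
  have ha1 : ∀ n, ‖a n‖ ≤ 1 := fun n => by
    simp only [ha]
    rw [norm_mul, norm_ee, mul_one]
    exact hf n
  have hterm : ∀ j m : ℕ, f (m + q * j) * ee (m * θ) = ee (-(q * j * θ)) * a (m + q * j) := by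
    intro j m
    simp only [ha]
    have h1 : (m : ℝ) * θ = -((q : ℝ) * j * θ) + ((m + q * j : ℕ) : ℝ) * θ := by
      push_cast; ring
    rw [h1, ee_add]
    ring
  have hsum : ∑ m ∈ Finset.Icc 1 (2 * N),
      (f m - (∑ j ∈ Finset.Icc 1 J, f (m + q * j)) / J) * ee (m * θ) =
      (∑ m ∈ Finset.Icc 1 (2 * N), f m * ee (m * θ)) *
        (1 - (∑ j ∈ Finset.Icc 1 J, ee (-(q * j * θ))) / J) -
      (∑ j ∈ Finset.Icc 1 J, ee (-(q * j * θ)) *
        (∑ m ∈ Finset.Icc 1 (2 * N), a (m + q * j) - ∑ m ∈ Finset.Icc 1 (2 * N), a m)) / J := by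
    have h1 : ∑ m ∈ Finset.Icc 1 (2 * N),
        (f m - (∑ j ∈ Finset.Icc 1 J, f (m + q * j)) / J) * ee (m * θ) =
        ∑ m ∈ Finset.Icc 1 (2 * N), a m -
          (∑ j ∈ Finset.Icc 1 J, ee (-(q * j * θ)) *
            ∑ m ∈ Finset.Icc 1 (2 * N), a (m + q * j)) / J := by
      simp_rw [Finset.mul_sum]
      rw [Finset.sum_comm, Finset.sum_div, ← Finset.sum_sub_distrib]
      refine Finset.sum_congr rfl fun m _ => ?_
      rw [sub_mul, div_mul_eq_mul_div, Finset.sum_mul]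
      congr 2
      exact Finset.sum_congr rfl fun j _ => hterm j m
    have h2 : ∑ j ∈ Finset.Icc 1 J, ee (-(q * j * θ)) *
        (∑ m ∈ Finset.Icc 1 (2 * N), a (m + q * j) - ∑ m ∈ Finset.Icc 1 (2 * N), a m) =
        ∑ j ∈ Finset.Icc 1 J, ee (-(q * j * θ)) * ∑ m ∈ Finset.Icc 1 (2 * N), a (m + q * j) -
          (∑ j ∈ Finset.Icc 1 J, ee (-(q * j * θ))) * ∑ m ∈ Finset.Icc 1 (2 * N), a m := by
      rw [Finset.sum_mul, ← Finset.sum_sub_distrib]
      exact Finset.sum_congr rfl fun j _ => mul_sub _ _ _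
    rw [h1, h2]
    show ∑ m ∈ Finset.Icc 1 (2 * N), a m - _ = (∑ m ∈ Finset.Icc 1 (2 * N), a m) * _ - _
    ring
  rw [hsum]
  refine (norm_sub_le _ _).trans ?_
  rw [norm_mul]
  have h3 : ‖(∑ j ∈ Finset.Icc 1 J, ee (-(q * j * θ)) *
      (∑ m ∈ Finset.Icc 1 (2 * N), a (m + q * j) - ∑ m ∈ Finset.Icc 1 (2 * N), a m)) / (J : ℂ)‖ ≤
      2 * q * J := by
    rw [norm_div, Complex.norm_natCast, div_le_iff₀ hJ0]
    refine (norm_sum_le _ _).trans ?_
    have h4 : ∀ j ∈ Finset.Icc 1 J, ‖ee (-(q * j * θ)) *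
        (∑ m ∈ Finset.Icc 1 (2 * N), a (m + q * j) - ∑ m ∈ Finset.Icc 1 (2 * N), a m)‖ ≤
        2 * q * J := by
      intro j hj
      rw [norm_mul, norm_ee, one_mul]
      refine (shift a ha1 (2 * N) (q * j)).trans ?_
      have h5 : (j : ℝ) ≤ J := by exact_mod_cast (Finset.mem_Icc.1 hj).2
      have h6 : (0 : ℝ) ≤ q := Nat.cast_nonneg q
      push_cast
      nlinarith [mul_le_mul_of_nonneg_left h5 h6]
    refine (Finset.sum_le_sum h4).trans ?_
    rw [Finset.sum_const, Nat.card_Icc, nsmul_eq_mul]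
    simp only [Nat.add_sub_cancel]
    linarith
  linarith

theorem uh2 (K N q J : ℕ) (θ : ℝ) (hq : ∀ q' : ℕ, 1 ≤ q' → q' ≤ K → q' ∣ q) (hN : 0 < N)
    (hJ : 0 < J) (hm : ¬ Minor K (2 * N) θ) :
    ‖1 - (∑ j ∈ Finset.Icc 1 J, ee (-(q * j * θ))) / J‖ ≤ Real.pi * J * q * K / N := by
  have hJ0 : (0 : ℝ) < J := by exact_mod_cast hJ
  have hN0 : (0 : ℝ) < N := by exact_mod_cast hN
  have hJC : (J : ℂ) ≠ 0 := by exact_mod_cast hJ.ne'
  unfold Minor at hm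
  push Not at hm
  obtain ⟨q', h1, h2, c, h3⟩ := hm
  obtain ⟨k, rfl⟩ := hq q' h1 h2
  have hterm : ∀ j ∈ Finset.Icc 1 J, ‖1 - ee (-(((q' * k : ℕ) : ℝ) * j * θ))‖ ≤
      Real.pi * J * ((q' * k : ℕ) : ℝ) * K / N := by
    intro j hj
    have hjJ : (j : ℝ) ≤ J := by exact_mod_cast (Finset.mem_Icc.1 hj).2
    refine (norm_one_sub_ee _ (-(k * j * c))).trans ?_
    have h4 : -(((q' * k : ℕ) : ℝ) * j * θ) - ((-((k : ℤ) * j * c) : ℤ) : ℝ) =
        -((k : ℝ) * j * (q' * θ - c)) := by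
      push_cast; ring
    rw [h4, abs_neg, abs_mul, abs_of_nonneg (by positivity : (0 : ℝ) ≤ (k : ℝ) * j)]
    have h5 : |(q' : ℝ) * θ - c| ≤ K / (2 * N) := by
      rw [le_div_iff₀ (by positivity)]
      push_cast at h3
      linarith
    have h6 : (k : ℝ) ≤ ((q' * k : ℕ) : ℝ) := by
      exact_mod_cast Nat.le_mul_of_pos_left k h1
    have h7 : (k : ℝ) * j ≤ ((q' * k : ℕ) : ℝ) * J :=
      mul_le_mul h6 hjJ (Nat.cast_nonneg j) (Nat.cast_nonneg _)
    have h8 : (k : ℝ) * j * |(q' : ℝ) * θ - c| ≤ ((q' * k : ℕ) : ℝ) * J * (K / (2 * N)) :=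
      mul_le_mul h7 h5 (abs_nonneg _) (by positivity)
    calc 2 * Real.pi * ((k : ℝ) * j * |(q' : ℝ) * θ - c|)
        ≤ 2 * Real.pi * (((q' * k : ℕ) : ℝ) * J * (K / (2 * N))) :=
          mul_le_mul_of_nonneg_left h8 (by positivity)
      _ = Real.pi * J * ((q' * k : ℕ) : ℝ) * K / N := by
          field_simp
  have hsum : (1 : ℂ) - (∑ j ∈ Finset.Icc 1 J, ee (-(((q' * k : ℕ) : ℝ) * j * θ))) / J =
      (∑ j ∈ Finset.Icc 1 J, (1 - ee (-(((q' * k : ℕ) : ℝ) * j * θ)))) / J := by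
    rw [Finset.sum_sub_distrib, Finset.sum_const, Nat.card_Icc, nsmul_eq_mul]
    simp only [Nat.add_sub_cancel]
    rw [sub_div, mul_one, div_self hJC]
  rw [hsum, norm_div, Complex.norm_natCast, div_le_iff₀ hJ0]
  refine (norm_sum_le _ _).trans ?_
  refine (Finset.sum_le_sum hterm).trans ?_
  rw [Finset.sum_const, Nat.card_Icc, nsmul_eq_mul]
  simp only [Nat.add_sub_cancel]
  linarith

theorem pf_UH : StatementUH :=
  ⟨fun f N q J θ hf hJ => uh1 f N q J θ hf hJ,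
    fun K N q J θ hq hN hJ hm => uh2 K N q J θ hq hN hJ hm⟩

end Pool.Agent.H49.DP
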